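import Pool.Agent.W476.TP.Stm

/-! TP-ACL: a complete perfect field with a sharp map to an algebraically closed field is
algebraically closed. -/

set_option autoImplicit false

namespace Pool.Agent.W465.TP

open Pool.Agent.W476.TP Polynomial

section basic

variable {p : ℕ} {C L : Type} [NormedField C] [Field L] (S : Sharp p C L)

/-- the absolute value on `L` -/
noncomputable def nm (u : L) : ℝ := ‖S.sh u‖

lemma nm_nonneg (u : L) : 0 ≤ nm S u := norm_nonneg _

lemma nm_mul (u v : L) : nm S (u * v) = nm S u * nm S v := by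
  unfold nm; rw [map_mul, norm_mul]

lemma nm_pow (u : L) (n : ℕ) : nm S (u ^ n) = nm S u ^ n := by
  unfold nm; rw [map_pow, norm_pow]

lemma nm_zero : nm S 0 = 0 := by unfold nm; rw [map_zero, norm_zero]

lemma nm_one : nm S 1 = 1 := by unfold nm; rw [map_one, norm_one]

lemma nm_eq_zero {u : L} (h : nm S u = 0) : u = 0 := by
  unfold nm at h
  exact (map_eq_zero S.sh).1 (norm_eq_zero.1 h)

lemma nm_neg (u : L) : nm S (-u) = nm S u := by
  have h1 : nm S (-1) ^ 2 = 1 := by rw [← nm_pow, neg_one_sq, nm_one]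
  have h2 : nm S (-1) = 1 := (pow_eq_one_iff_of_nonneg (nm_nonneg S _) two_ne_zero).1 h1
  rw [neg_eq_neg_one_mul, nm_mul, h2, one_mul]

variable [IsUltrametricDist C]

lemma add_C (a b : C) : ‖a + b‖ ≤ max ‖a‖ ‖b‖ := IsUltrametricDist.norm_add_le_max a b

lemma nm_add (hP : ‖(p : C)‖ ≤ 1) (u v : L) : nm S (u + v) ≤ max (nm S u) (nm S v) := by
  have h1 := S.add u v
  have h2 := add_C (S.sh (u + v) - (S.sh u + S.sh v)) (S.sh u + S.sh v)
  rw [sub_add_cancel] at h2
  have h3 : ‖(p : C)‖ * max ‖S.sh u‖ ‖S.sh v‖ ≤ max ‖S.sh u‖ ‖S.sh v‖ :=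
    mul_le_of_le_one_left (le_max_of_le_left (norm_nonneg _)) hP
  exact h2.trans (max_le (h1.trans h3) (add_C _ _))

lemma nm_sub (hP : ‖(p : C)‖ ≤ 1) (u v : L) : nm S (u - v) ≤ max (nm S u) (nm S v) := by
  rw [sub_eq_add_neg]
  have h := nm_add S hP u (-v)
  rwa [nm_neg] at h

/-- the unit ball -/
noncomputable def OO (hP : ‖(p : C)‖ ≤ 1) : Subring L where
  carrier := {u | nm S u ≤ 1}
  mul_mem' := by
    intro a b ha hb
    show nm S (a * b) ≤ 1
    rw [nm_mul]
    exact mul_le_one₀ ha (nm_nonneg S _) hb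
  one_mem' := by
    show nm S 1 ≤ 1
    rw [nm_one]
  add_mem' := by
    intro a b ha hb
    exact (nm_add S hP a b).trans (max_le ha hb)
  zero_mem' := by
    show nm S 0 ≤ 1
    rw [nm_zero]
    exact zero_le_one
  neg_mem' := by
    intro a ha
    show nm S (-a) ≤ 1
    rw [nm_neg]
    exact ha

lemma nm_sum {ι : Type} (hP : ‖(p : C)‖ ≤ 1) (s : Finset ι) (f : ι → L) (M : ℝ) (hM : 0 ≤ M)
    (h : ∀ i ∈ s, nm S (f i) ≤ M) : nm S (∑ i ∈ s, f i) ≤ M := by
  classical
  induction s using Finset.induction_on with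
  | empty => rw [Finset.sum_empty, nm_zero]; exact hM
  | insert a s ha ih =>
    rw [Finset.sum_insert ha]
    exact (nm_add S hP _ _).trans (max_le (h a (Finset.mem_insert_self a s))
      (ih fun i hi => h i (Finset.mem_insert_of_mem hi)))

/-- the sharp of a finite sum -/
lemma sh_sum {ι : Type} (hP : ‖(p : C)‖ ≤ 1) (s : Finset ι) (f : ι → L) (M : ℝ) (hM : 0 ≤ M)
    (h : ∀ i ∈ s, nm S (f i) ≤ M) :
    ‖S.sh (∑ i ∈ s, f i) - ∑ i ∈ s, S.sh (f i)‖ ≤ ‖(p : C)‖ * M := by
  classical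
  induction s using Finset.induction_on with
  | empty => rw [Finset.sum_empty, Finset.sum_empty, map_zero, sub_zero, norm_zero]; positivity
  | insert a s ha ih =>
    rw [Finset.sum_insert ha, Finset.sum_insert ha]
    have h1 := ih fun i hi => h i (Finset.mem_insert_of_mem hi)
    have h2 := nm_sum S hP s f M hM fun i hi => h i (Finset.mem_insert_of_mem hi)
    have h3 := h a (Finset.mem_insert_self a s)
    have h4 := S.add (f a) (∑ i ∈ s, f i)
    have h5 : S.sh (f a + ∑ i ∈ s, f i) - (S.sh (f a) + ∑ i ∈ s, S.sh (f i)) =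
        (S.sh (f a + ∑ i ∈ s, f i) - (S.sh (f a) + S.sh (∑ i ∈ s, f i))) +
          (S.sh (∑ i ∈ s, f i) - ∑ i ∈ s, S.sh (f i)) := by ring
    rw [h5]
    refine (add_C _ _).trans (max_le (h4.trans ?_) h1)
    exact mul_le_mul_of_nonneg_left (max_le h3 h2) (norm_nonneg _)

end basic

/-- iterated `p`-th roots -/
lemma exists_root {p : ℕ} {L : Type} [Field L] (h : ∀ u : L, ∃ v : L, v ^ p = u) (k : ℕ) :
    ∀ u : L, ∃ v : L, v ^ p ^ k = u := by
  induction k with
  | zero => intro u; exact ⟨u, by simp⟩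
  | succ k ih =>
    intro u
    obtain ⟨v, hv⟩ := ih u
    obtain ⟨w, hw⟩ := h v
    exact ⟨w, by rw [pow_succ', pow_mul, hw, hv]⟩

lemma pow_card_le_prod (s : Multiset ℝ) (m : ℝ) (hm : 0 ≤ m) (h : ∀ x ∈ s, m ≤ x) :
    m ^ Multiset.card s ≤ s.prod := by
  induction s using Multiset.induction_on with
  | empty => simp
  | cons a s ih =>
    rw [Multiset.card_cons, Multiset.prod_cons, pow_succ']
    exact mul_le_mul (h a (Multiset.mem_cons_self a s))
      (ih fun x hx => h x (Multiset.mem_cons_of_mem hx)) (by positivity)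
      (hm.trans (h a (Multiset.mem_cons_self a s)))

/-- A monic polynomial over an algebraically closed normed field has a small root. -/
lemma small_root {C : Type} [NormedField C] [IsAlgClosed C] (Q : C[X]) (hQ : Q.Monic)
    (hd : 0 < Q.natDegree) : ∃ t : C, Q.eval t = 0 ∧ ‖t‖ ^ Q.natDegree ≤ ‖Q.coeff 0‖ := by
  classical
  have hsp : Q.Splits := IsAlgClosed.splits Q
  have h1 : Q.coeff 0 = (-1) ^ Q.natDegree * Q.roots.prod :=
    Polynomial.Splits.coeff_zero_eq_prod_roots_of_monic hsp hQ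
  have h2 : Multiset.card Q.roots = Q.natDegree := hsp.natDegree_eq_card_roots.symm
  have hne : Q.roots.toFinset.Nonempty := by
    rw [Finset.nonempty_iff_ne_empty]
    intro h
    rw [Multiset.toFinset_eq_empty] at h
    rw [h, Multiset.card_zero] at h2
    omega
  obtain ⟨t, ht, hmin⟩ := Finset.exists_min_image Q.roots.toFinset (fun t => ‖t‖) hne
  rw [Multiset.mem_toFinset] at ht
  refine ⟨t, (Polynomial.mem_roots'.1 ht).2, ?_⟩
  have h3 : ‖Q.coeff 0‖ = (Q.roots.map fun t => ‖t‖).prod := by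
    rw [h1, norm_mul, norm_pow, norm_neg, norm_one, one_pow, one_mul]
    exact map_multiset_prod (normHom : C →*₀ ℝ) _
  rw [h3, ← h2]
  have h4 := pow_card_le_prod (Q.roots.map fun t => ‖t‖) ‖t‖ (norm_nonneg _) (by
    intro x hx
    obtain ⟨y, hy, rfl⟩ := Multiset.mem_map.1 hx
    exact hmin y (Multiset.mem_toFinset.2 hy))
  rwa [Multiset.card_map] at h4

section main

variable {p : ℕ} [Fact p.Prime] {C L : Type} [NormedField C] [IsUltrametricDist C]
  [IsAlgClosed C] [Field L] [CharP L p] (S : Sharp p C L)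

/-- the main step: an approximate root -/
theorem step (h1 : ‖(p : C)‖ < 1) (hroot : ∀ u : L, ∃ v : L, v ^ p = u)
    (Q : (OO S h1.le)[X]) (hQ : Q.Monic) (hd : 0 < Q.natDegree) (ρ : ℝ) (hρ : 0 < ρ) :
    ∃ c : OO S h1.le, nm S (c : L) ^ Q.natDegree ≤ nm S (Q.coeff 0 : L) ∧
      nm S ((Q.eval c : OO S h1.le) : L) ≤ ρ := by
  classical
  obtain ⟨k, hk⟩ := exists_pow_lt_of_lt_one hρ h1
  have hk2 : ‖(p : C)‖ ^ p ^ k ≤ ρ :=
    (pow_le_pow_of_le_one (norm_nonneg _) h1.le
      (Nat.lt_pow_self (Fact.out : p.Prime).one_lt).le).trans hk.le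
  choose r hr using exists_root hroot k
  obtain ⟨d, hdd⟩ : ∃ d, d = Q.natDegree := ⟨_, rfl⟩
  rw [← hdd] at hd ⊢
  obtain ⟨a, ha⟩ : ∃ a : ℕ → L, a = fun i => if i = d then 1 else r (Q.coeff i : L) := ⟨_, rfl⟩
  have ha1 : ∀ i, i < d → a i = r (Q.coeff i : L) := by
    intro i hi; rw [ha]; simp [hi.ne]
  have had : a d = 1 := by rw [ha]; simp
  have hapow : ∀ i ≤ d, a i ^ p ^ k = (Q.coeff i : L) := by
    intro i hi
    rcases hi.lt_or_eq with h | h
    · rw [ha1 i h, hr]
    · rw [h, had, one_pow, hdd]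
      have : Q.coeff Q.natDegree = 1 := hQ.coeff_natDegree
      rw [this]; rfl
  have hpk : p ^ k ≠ 0 := pow_ne_zero _ (Fact.out : p.Prime).ne_zero
  have hale : ∀ i ≤ d, nm S (a i) ≤ 1 := by
    intro i hi
    have h2 : nm S (a i) ^ p ^ k ≤ 1 := by
      rw [← nm_pow, hapow i hi]
      exact (Q.coeff i).2
    exact (pow_le_one_iff_of_nonneg (nm_nonneg S _) hpk).1 h2
  -- the polynomial over `C`
  obtain ⟨R, hR⟩ : ∃ R : C[X], R = ∑ i ∈ Finset.range (d + 1),
    Polynomial.C (S.sh (a i)) * X ^ i := ⟨_, rfl⟩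
  have hcoeff : ∀ i ≤ d, R.coeff i = S.sh (a i) := by
    intro i hi
    rw [hR, Polynomial.finsetSum_coeff]
    rw [Finset.sum_eq_single i]
    · simp
    · intro j _ hj
      rw [Polynomial.coeff_C_mul, Polynomial.coeff_X_pow, if_neg (Ne.symm hj), mul_zero]
    · intro h
      exact absurd (Finset.mem_range.2 (by omega)) h
  have hRdeg : R.natDegree ≤ d := by
    rw [hR]
    refine Polynomial.natDegree_sum_le_of_forall_le _ _ fun i hi => ?_
    rw [Finset.mem_range] at hi
    exact (Polynomial.natDegree_C_mul_X_pow_le _ _).trans (by omega)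
  have hRd : R.coeff d = 1 := by rw [hcoeff d le_rfl, had, map_one]
  have hRnat : R.natDegree = d :=
    le_antisymm hRdeg (Polynomial.le_natDegree_of_ne_zero (by rw [hRd]; exact one_ne_zero))
  have hRm : R.Monic := by
    unfold Polynomial.Monic Polynomial.leadingCoeff
    rw [hRnat, hRd]
  obtain ⟨t, ht0, ht1⟩ := small_root R hRm (by rw [hRnat]; exact hd)
  rw [hRnat, hcoeff 0 (Nat.zero_le _)] at ht1
  obtain ⟨b, hb⟩ := S.surj t
  have hbd : nm S b ^ d ≤ nm S (a 0) := by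
    unfold nm; rw [hb]; exact ht1
  have hb1 : nm S b ≤ 1 :=
    (pow_le_one_iff_of_nonneg (nm_nonneg S _) hd.ne').1 (hbd.trans (hale 0 (Nat.zero_le _)))
  -- the value at `b`
  have hterm : ∀ i ∈ Finset.range (d + 1), nm S (a i * b ^ i) ≤ 1 := by
    intro i hi
    rw [Finset.mem_range] at hi
    rw [nm_mul, nm_pow]
    exact mul_le_one₀ (hale i (by omega)) (pow_nonneg (nm_nonneg S _) _)
      (pow_le_one₀ (nm_nonneg S _) hb1)
  have hsum := sh_sum S h1.le (Finset.range (d + 1)) (fun i => a i * b ^ i) 1 zero_le_one hterm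
  have hzero : ∑ i ∈ Finset.range (d + 1), S.sh (a i * b ^ i) = 0 := by
    rw [hR, Polynomial.eval_finsetSum] at ht0
    rw [← ht0]
    refine Finset.sum_congr rfl fun i _ => ?_
    rw [map_mul, map_pow, hb]
    simp
  rw [hzero, sub_zero, mul_one] at hsum
  have hcO : nm S (b ^ p ^ k) ≤ 1 := by
    rw [nm_pow]; exact pow_le_one₀ (nm_nonneg S _) hb1
  refine ⟨⟨b ^ p ^ k, hcO⟩, ?_, ?_⟩
  · show nm S (b ^ p ^ k) ^ d ≤ _
    rw [nm_pow, ← pow_mul, mul_comm, pow_mul]
    refine (pow_le_pow_left₀ (pow_nonneg (nm_nonneg S _) _) hbd _).trans ?_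
    rw [← nm_pow, hapow 0 (Nat.zero_le _)]
  · have h5 : ((Q.eval (⟨b ^ p ^ k, hcO⟩ : OO S h1.le) : OO S h1.le) : L) =
        (∑ i ∈ Finset.range (d + 1), a i * b ^ i) ^ p ^ k := by
      rw [sum_pow_char_pow]
      rw [Polynomial.eval_eq_sum_range, ← hdd]
      rw [AddSubmonoidClass.coe_finsetSum]
      refine Finset.sum_congr rfl fun i hi => ?_
      rw [Finset.mem_range] at hi
      rw [mul_pow, hapow i (by omega)]
      show (Q.coeff i : L) * (b ^ p ^ k) ^ i = _
      rw [← pow_mul, ← pow_mul, mul_comm (p ^ k)]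
    rw [h5, nm_pow]
    exact (pow_le_pow_left₀ (nm_nonneg S _) hsum _).trans hk2

/-- a monic polynomial with coefficients in the unit ball has a root -/
theorem root_O (h1 : ‖(p : C)‖ < 1) (hc : Cpl S) (hroot : ∀ u : L, ∃ v : L, v ^ p = u)
    (Q : (OO S h1.le)[X]) (hQ : Q.Monic) (hd : 0 < Q.natDegree) :
    ∃ s : OO S h1.le, Q.eval s = 0 := by
  classical
  have hstep : ∀ (j : ℕ) (x : OO S h1.le), ∃ y : OO S h1.le,
      nm S ((Q.eval x : OO S h1.le) : L) ≤ (1 / 2 : ℝ) ^ j →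
      nm S ((Q.eval y : OO S h1.le) : L) ≤ (1 / 2 : ℝ) ^ (j + 1) ∧
      nm S ((y : L) - (x : L)) ^ Q.natDegree ≤ (1 / 2 : ℝ) ^ j := by
    intro j x
    obtain ⟨c, hc1, hc2⟩ := step S h1 hroot (Q.comp (X + Polynomial.C x))
      (hQ.comp_X_add_C x) (by
        rw [Polynomial.natDegree_comp, Polynomial.natDegree_X_add_C, mul_one]; exact hd)
      ((1 / 2 : ℝ) ^ (j + 1)) (by positivity)
    rw [Polynomial.natDegree_comp, Polynomial.natDegree_X_add_C, mul_one,
      Polynomial.coeff_zero_eq_eval_zero, Polynomial.eval_comp] at hc1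
    rw [Polynomial.eval_comp] at hc2
    simp only [Polynomial.eval_add, Polynomial.eval_X, Polynomial.eval_C, zero_add] at hc1 hc2
    refine ⟨c + x, fun h => ⟨hc2, ?_⟩⟩
    have h3 : (((c + x : OO S h1.le) : L) - (x : L)) = (c : L) := by
      show (c : L) + (x : L) - (x : L) = (c : L)
      ring
    rw [h3]
    exact hc1.trans h
  choose f hf using hstep
  obtain ⟨x, hx⟩ : ∃ x : ℕ → OO S h1.le, x = fun n => Nat.rec 0 (fun j y => f j y) n := ⟨_, rfl⟩
  have hx0 : x 0 = 0 := by rw [hx]; rfl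
  have hxs : ∀ j, x (j + 1) = f j (x j) := by intro j; rw [hx]
  have hval : ∀ j, nm S ((Q.eval (x j) : OO S h1.le) : L) ≤ (1 / 2 : ℝ) ^ j := by
    intro j
    induction j with
    | zero => rw [pow_zero]; exact (Q.eval (x 0)).2
    | succ j ih => rw [hxs]; exact (hf j (x j) ih).1
  have hdiff : ∀ j, nm S ((x (j + 1) : L) - (x j : L)) ^ Q.natDegree ≤ (1 / 2 : ℝ) ^ j := by
    intro j
    rw [hxs]
    exact (hf j (x j) (hval j)).2
  have htend : Filter.Tendsto (fun j => ‖S.sh ((x (j + 1) : L) - (x j : L))‖) Filter.atTop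
      (nhds 0) := by
    rw [Metric.tendsto_atTop]
    intro ε hε
    obtain ⟨N, hN⟩ := exists_pow_lt_of_lt_one (pow_pos hε Q.natDegree)
      (by norm_num : (1 / 2 : ℝ) < 1)
    refine ⟨N, fun j hj => ?_⟩
    rw [Real.dist_eq, sub_zero, abs_norm]
    refine lt_of_pow_lt_pow_left₀ Q.natDegree hε.le ?_
    refine lt_of_le_of_lt (hdiff j) (lt_of_le_of_lt ?_ hN)
    exact pow_le_pow_of_le_one (by norm_num) (by norm_num) hj
  obtain ⟨s, hs⟩ := hc _ htend
  have htel : ∀ k, ∑ i ∈ Finset.range k, ((x (i + 1) : L) - (x i : L)) = (x k : L) := by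
    intro k
    rw [Finset.sum_range_sub (fun i => (x i : L)), hx0]
    simp
  simp_rw [htel] at hs
  have hsO : nm S s ≤ 1 := by
    rw [Metric.tendsto_atTop] at hs
    obtain ⟨N, hN⟩ := hs 1 one_pos
    have h2 := hN N le_rfl
    rw [Real.dist_eq, sub_zero, abs_norm] at h2
    have h3 := nm_add S h1.le (s - (x N : L)) (x N : L)
    rw [sub_add_cancel] at h3
    exact h3.trans (max_le h2.le (x N).2)
  refine ⟨⟨s, hsO⟩, ?_⟩
  have hlim : Filter.Tendsto (fun k => max (‖S.sh (s - (x k : L))‖) ((1 / 2 : ℝ) ^ k))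
      Filter.atTop (nhds 0) := by
    have h2 := hs.max (tendsto_pow_atTop_nhds_zero_of_lt_one (by norm_num : (0 : ℝ) ≤ 1 / 2)
      (by norm_num : (1 / 2 : ℝ) < 1))
    rwa [max_self] at h2
  have hle : ∀ k, nm S ((Q.eval (⟨s, hsO⟩ : OO S h1.le) : OO S h1.le) : L) ≤
      max (‖S.sh (s - (x k : L))‖) ((1 / 2 : ℝ) ^ k) := by
    intro k
    obtain ⟨q, hq⟩ := Polynomial.sub_dvd_eval_sub (⟨s, hsO⟩ : OO S h1.le) (x k) Q
    have h2 : ((Q.eval (⟨s, hsO⟩ : OO S h1.le) : OO S h1.le) : L) =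
        (s - (x k : L)) * (q : L) + ((Q.eval (x k) : OO S h1.le) : L) := by
      have h3 : Q.eval (⟨s, hsO⟩ : OO S h1.le) =
          ((⟨s, hsO⟩ : OO S h1.le) - x k) * q + Q.eval (x k) := by
        rw [← hq]; ring
      rw [h3]
      rfl
    rw [h2]
    refine (nm_add S h1.le _ _).trans (max_le_max ?_ (hval k))
    rw [nm_mul]
    exact mul_le_of_le_one_right (nm_nonneg S _) q.2
  have hz : nm S ((Q.eval (⟨s, hsO⟩ : OO S h1.le) : OO S h1.le) : L) ≤ 0 :=
    ge_of_tendsto' hlim hle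
  have h4 := nm_eq_zero S (le_antisymm hz (nm_nonneg S _))
  exact Subtype.ext h4

end main

theorem t_ACL : S_ACL := by
  intro p _ C L _ _ _ _ _ S h0 h1 hc hroot
  classical
  refine IsAlgClosed.of_exists_root L fun q hq hirr => ?_
  have hd : 0 < q.natDegree := hirr.natDegree_pos
  -- a small nonzero `lam`
  obtain ⟨M, hM0, hM⟩ : ∃ M : ℝ, 0 < M ∧ ∀ i, nm S (q.coeff i) ≤ M := by
    refine ⟨1 + ∑ i ∈ Finset.range (q.natDegree + 1), nm S (q.coeff i), ?_, fun i => ?_⟩
    · have : 0 ≤ ∑ i ∈ Finset.range (q.natDegree + 1), nm S (q.coeff i) :=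
        Finset.sum_nonneg fun i _ => nm_nonneg S _
      linarith
    · by_cases hi : i ≤ q.natDegree
      · have := Finset.single_le_sum (f := fun i => nm S (q.coeff i))
          (fun i _ => nm_nonneg S _) (Finset.mem_range.2 (by omega : i < q.natDegree + 1))
        linarith
      · rw [Polynomial.coeff_eq_zero_of_natDegree_lt (by omega), nm_zero]
        have : 0 ≤ ∑ i ∈ Finset.range (q.natDegree + 1), nm S (q.coeff i) :=
          Finset.sum_nonneg fun i _ => nm_nonneg S _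
        linarith
  obtain ⟨n, hn⟩ := exists_pow_lt_of_lt_one (inv_pos.2 hM0) h1
  obtain ⟨lam, hlam⟩ := S.surj ((p : C) ^ n)
  have hl1 : nm S lam = ‖(p : C)‖ ^ n := by unfold nm; rw [hlam, norm_pow]
  have hl0 : lam ≠ 0 := by
    intro h
    rw [h, nm_zero] at hl1
    exact (pow_pos h0 n).ne hl1
  have hlle : nm S lam ≤ 1 := by rw [hl1]; exact pow_le_one₀ (norm_nonneg _) h1.le
  have hlM : nm S lam * M ≤ 1 := by
    rw [hl1]
    have := mul_le_mul_of_nonneg_right hn.le hM0.le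
    rwa [inv_mul_cancel₀ hM0.ne'] at this
  have hmon : (q.scaleRoots lam).Monic := (Polynomial.monic_scaleRoots_iff lam).2 hq
  have hcoef : ((q.scaleRoots lam).coeffs : Set L) ⊆ (OO S h1.le : Set L) := by
    intro u hu
    rw [Finset.mem_coe, Polynomial.mem_coeffs_iff] at hu
    obtain ⟨i, -, rfl⟩ := hu
    show nm S ((q.scaleRoots lam).coeff i) ≤ 1
    rw [Polynomial.coeff_scaleRoots, nm_mul, nm_pow]
    rcases lt_trichotomy i q.natDegree with hi | hi | hi
    · obtain ⟨j, hj⟩ : ∃ j, q.natDegree - i = j + 1 := ⟨q.natDegree - i - 1, by omega⟩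
      rw [hj, pow_succ]
      calc nm S (q.coeff i) * (nm S lam ^ j * nm S lam)
          ≤ M * (1 * nm S lam) := by
            refine mul_le_mul (hM i) ?_ (by have := nm_nonneg S lam; positivity) hM0.le
            exact mul_le_mul_of_nonneg_right (pow_le_one₀ (nm_nonneg S _) hlle) (nm_nonneg S _)
        _ = nm S lam * M := by ring
        _ ≤ 1 := hlM
    · rw [hi, Nat.sub_self, pow_zero, mul_one, hq.coeff_natDegree, nm_one]
    · rw [Polynomial.coeff_eq_zero_of_natDegree_lt hi, nm_zero, zero_mul]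
      exact zero_le_one
  obtain ⟨s, hs⟩ := root_O S h1 hc hroot ((q.scaleRoots lam).toSubring (OO S h1.le) hcoef)
    ((Polynomial.monic_toSubring _ _ hcoef).2 hmon) (by
      rw [Polynomial.natDegree_toSubring, Polynomial.natDegree_scaleRoots]; exact hd)
  have hs2 : (q.scaleRoots lam).eval (s : L) = 0 := by
    have h2 := congrArg (OO S h1.le).subtype hs
    rw [map_zero, ← Polynomial.eval_map_apply] at h2
    rw [Polynomial.map_toSubring] at h2
    exact h2
  refine ⟨(s : L) / lam, ?_⟩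
  have h3 := Polynomial.scaleRoots_eval₂_mul (p := q) (RingHom.id L) ((s : L) / lam) lam
  rw [RingHom.id_apply, mul_div_cancel₀ _ hl0] at h3
  change (q.scaleRoots lam).eval (s : L) = lam ^ q.natDegree * q.eval ((s : L) / lam) at h3
  rw [hs2] at h3
  rcases mul_eq_zero.1 h3.symm with h4 | h4
  · exact absurd h4 (pow_ne_zero _ hl0)
  · exact h4

end Pool.Agent.W465.TP
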